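import Mathlib
import Pool.Agent.MP_1f2b6a_al.Defs

-- part MP_1f2b6a_al.Core
section

/-! Additive core of the bound on class-preserving automorphisms of metabelian groups. -/

namespace Pool.Agent.MP_1f2b6a_al

section Core

variable {G A T : Type*} [Group G] [AddCommGroup A] [AddCommGroup T]

/-- A strong cocycle takes the same value under a character at two points that move the
character in the same way. -/
theorem strong_welldef (ρ : G → A →+ A) (hmul : ∀ g h a, ρ (g * h) a = ρ g (ρ h a))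
    (hone : ∀ a, ρ 1 a = a) (z : G → A) (hz : ∀ g h, z (g * h) = z g + ρ g (z h))
    (hs : ∀ g, ∃ a, z g = a - ρ g a) (w : A →+ T) (y y' : G)
    (hy : ∀ a, w (ρ y a) = w (ρ y' a)) : w (z y) = w (z y') := by
  have hu : ∀ a, w (ρ (y' * y⁻¹) a) = w a := by
    intro a
    rw [hmul, ← hy, ← hmul, mul_inv_cancel, hone]
  have h1 : z y' = z (y' * y⁻¹) + ρ (y' * y⁻¹) (z y) := by
    rw [← hz]; simp
  obtain ⟨a, ha⟩ := hs (y' * y⁻¹)
  rw [h1, map_add, hu, ha, map_sub, hu]
  simp

theorem rank_two (ρ : G → A →+ A) (hmul : ∀ g h a, ρ (g * h) a = ρ g (ρ h a))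
    (hone : ∀ a, ρ 1 a = a) (hcomm : ∀ g h a, ρ g (ρ h a) = ρ h (ρ g a))
    (D : A →+ A) (hD : ∀ g a, D (ρ g a) = ρ g (D a))
    (hloc : ∀ w : A →+ T, ∃ y, ∀ a, w (D a) = w (ρ y a))
    (z : G → A) (hz : ∀ g h, z (g * h) = z g + ρ g (z h))
    (hsym : ∀ g h, ρ g (z h) - z h = ρ h (z g) - z g)
    (hs : ∀ g, ∃ a, z g = a - ρ g a) (a₁ a₂ : A →+ T) (b₁ b₂ : G)
    (hb : ∀ a, a₁ (ρ b₁ a) + a₂ (ρ b₂ a) = a₁ a + a₂ a) :
    a₁ (D (z b₁) - z b₁) + a₂ (D (z b₂) - z b₂) = 0 := by
  obtain ⟨x₁, hx₁⟩ := hloc a₁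
  obtain ⟨x₂, hx₂⟩ := hloc a₂
  let v : A →+ T := a₁.comp (ρ b₁) - a₁
  have hv1 : ∀ a, v a = a₁ (ρ b₁ a) - a₁ a := fun a => rfl
  have hv2 : ∀ a, v a = a₂ a - a₂ (ρ b₂ a) := by
    intro a
    rw [hv1]
    linear_combination (norm := abel) hb a
  have e1 : a₁ (D (z b₁) - z b₁) = v (z x₁) := by
    rw [map_sub, hx₁, ← map_sub, hsym, map_sub, hv1]
  have e2 : a₂ (D (z b₂) - z b₂) = - v (z x₂) := by
    rw [map_sub, hx₂, ← map_sub, hsym, map_sub, hv2]
    abel
  have f1 : ∀ a, v (D a) = v (ρ x₁ a) := by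
    intro a
    rw [hv1, hv1, ← hD, hx₁, hx₁, hcomm]
  have f2 : ∀ a, v (D a) = v (ρ x₂ a) := by
    intro a
    rw [hv2, hv2, ← hD, hx₂, hx₂, hcomm]
  have := strong_welldef ρ hmul hone z hz hs v x₁ x₂ (fun a => by rw [← f1, f2])
  rw [e1, e2, this]
  abel

theorem core (ρ : G → A →+ A) (hmul : ∀ g h a, ρ (g * h) a = ρ g (ρ h a))
    (hone : ∀ a, ρ 1 a = a) (hcomm : ∀ g h a, ρ g (ρ h a) = ρ h (ρ g a))
    (D D' : A →+ A) (hD : ∀ g a, D (ρ g a) = ρ g (D a)) (hD' : ∀ g a, D' (ρ g a) = ρ g (D' a))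
    (hloc : ∀ w : A →+ T, ∃ y, ∀ a, w (D a) = w (ρ y a))
    (hloc' : ∀ w : A →+ T, ∃ y, ∀ a, w (D' a) = w (ρ y a))
    (z : G → A) (hz : ∀ g h, z (g * h) = z g + ρ g (z h))
    (hsym : ∀ g h, ρ g (z h) - z h = ρ h (z g) - z g)
    (hs : ∀ g, ∃ a, z g = a - ρ g a)
    (hsep : ∀ a b : A, (∀ w : A →+ T, w a = w b) → a = b)
    (hdd : ∀ f : (A →+ T) →+ T, ∃ a, ∀ w, f w = w a) :
    ∃ a, ∀ h, D (D' (z h) - z h) - (D' (z h) - z h) = ρ h a - a := by
  set z' : G → A := fun h => D' (z h) - z h with hz'def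
  have hz' : ∀ g h, z' (g * h) = z' g + ρ g (z' h) := by
    intro g h
    simp only [hz'def, hz, map_add, map_sub, hD']
    abel
  have hsym' : ∀ g h, ρ g (z' h) - z' h = ρ h (z' g) - z' g := by
    intro g h
    have h1 := congrArg D' (hsym g h)
    have h2 := hsym g h
    simp only [map_sub, hD'] at h1
    simp only [hz'def, map_sub]
    linear_combination (norm := abel) h1 - h2
  have hs' : ∀ g, ∃ a, z' g = a - ρ g a := by
    intro g
    obtain ⟨a, ha⟩ := hs g
    refine ⟨D' a - a, ?_⟩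
    simp only [hz'def, ha, map_sub, hD']
    abel
  choose y hy using hloc
  have hadd : ∀ w₁ w₂ : A →+ T,
      (w₁ + w₂) (z' (y (w₁ + w₂))) = w₁ (z' (y w₁)) + w₂ (z' (y w₂)) := by
    intro w₁ w₂
    set y₃ := y (w₁ + w₂) with hy₃
    have key := rank_two ρ hmul hone hcomm D' hD' hloc' z hz hsym hs
      (w₁.comp (ρ y₃)) (w₂.comp (ρ y₃)) (y₃⁻¹ * y w₁) (y₃⁻¹ * y w₂) (by
        intro a
        have h3 := hy (w₁ + w₂) a
        simp only [AddMonoidHom.comp_apply, ← hmul, mul_inv_cancel_left]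
        rw [← hy, ← hy]
        simpa using h3)
    have g1 : z' (y w₁) = z' y₃ + ρ y₃ (z' (y₃⁻¹ * y w₁)) := by
      rw [← hz']; simp
    have g2 : z' (y w₂) = z' y₃ + ρ y₃ (z' (y₃⁻¹ * y w₂)) := by
      rw [← hz']; simp
    rw [g1, g2, map_add, map_add, AddMonoidHom.add_apply]
    simp only [AddMonoidHom.comp_apply] at key
    linear_combination (norm := abel) - key
  let f : (A →+ T) →+ T := AddMonoidHom.mk' (fun w => w (z' (y w))) hadd
  obtain ⟨a, ha⟩ := hdd f
  refine ⟨a, fun h => hsep _ _ fun w => ?_⟩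
  let μ : A →+ T := w.comp (ρ h) - w
  have hμ : ∀ b, μ b = w (ρ h b) - w b := fun b => rfl
  have h1 : w (D (z' h) - z' h) = μ (z' (y w)) := by
    rw [map_sub, hy, ← map_sub, hsym', map_sub, hμ]
  have h2 : μ (z' (y w)) = μ (z' (y μ)) := by
    refine strong_welldef ρ hmul hone z' hz' hs' μ _ _ fun b => ?_
    rw [← hy μ, hμ, hμ, ← hD, hy w, hy w, hcomm]
  have h3 : μ (z' (y μ)) = μ a := ha μ
  change w (D (z' h) - z' h) = _
  rw [h1, h2, h3, hμ, map_sub]

end Core

end Pool.Agent.MP_1f2b6a_al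

end

-- part MP_1f2b6a_al.Dual
section

/-! Character duality input and the multiplicative form of the core lemma. -/

namespace Pool.Agent.MP_1f2b6a_al

section Dual

variable {G A : Type*} [Group G] [Finite G] [CommGroup A] [Finite A]

omit [Finite A] in
/-- An endomorphism that moves every element inside its orbit moves every character inside
its orbit. -/
theorem dual_local (ρ : G → A →* A) (hmul : ∀ g h a, ρ (g * h) a = ρ g (ρ h a))
    (hone : ∀ a, ρ 1 a = a) (D : A →* A) (hl : ∀ a, ∃ x, D a = ρ x a) (w : A →* ℂˣ) :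
    ∃ y, ∀ a, w (D a) = w (ρ y a) := by
  classical
  have := Fintype.ofFinite G
  let c : (A →* A) → (A →* ℂ) := fun E => (Units.coeHom ℂ).comp (w.comp E)
  have hsum : ∀ a, ∑ g : G, c ((ρ g).comp D) a = ∑ g : G, c (ρ g) a := by
    intro a
    obtain ⟨x, hx⟩ := hl a
    have : ∀ g, c ((ρ g).comp D) a = c (ρ (g * x)) a := by
      intro g
      simp [c, hx, hmul]
    simp only [this]
    exact Fintype.sum_equiv (Equiv.mulRight x) _ _ (fun g => rfl)
  have hli := linearIndependent_monoidHom A ℂ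
  have hinj := hli
  rw [LinearIndependent] at hinj
  have heq : (∑ g : G, Finsupp.single (c ((ρ g).comp D)) (1 : ℂ)) =
      ∑ g : G, Finsupp.single (c (ρ g)) (1 : ℂ) := by
    apply hinj
    simp only [map_sum, Finsupp.linearCombination_single, one_smul]
    funext a
    simpa [Finset.sum_apply] using hsum a
  by_contra hcon
  push Not at hcon
  have h1 := congrArg (fun F : (A →* ℂ) →₀ ℂ => F (c ((ρ 1).comp D))) heq
  simp only [Finsupp.finsetSum_apply, Finsupp.single_apply] at h1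
  have hR : (∑ g : G, if c (ρ g) = c ((ρ 1).comp D) then (1 : ℂ) else 0) = 0 := by
    refine Finset.sum_eq_zero fun g _ => ?_
    rw [if_neg]
    intro hg
    obtain ⟨a, ha⟩ := hcon g
    apply ha
    have := DFunLike.congr_fun hg a
    simp only [c, MonoidHom.comp_apply, Units.coeHom_apply, hone] at this
    exact (Units.ext this).symm
  rw [hR, Finset.sum_boole, Nat.cast_eq_zero, Finset.card_eq_zero] at h1
  have : (1 : G) ∈ (Finset.univ.filter fun g : G => c ((ρ g).comp D) = c ((ρ 1).comp D)) := by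
    simp
  rw [h1] at this
  simp at this

/-- Multiplicative form of the core lemma. -/
theorem core_mul (ρ : G → A →* A) (hmul : ∀ g h a, ρ (g * h) a = ρ g (ρ h a))
    (hone : ∀ a, ρ 1 a = a) (hcomm : ∀ g h a, ρ g (ρ h a) = ρ h (ρ g a))
    (D D' : A →* A) (hD : ∀ g a, D (ρ g a) = ρ g (D a)) (hD' : ∀ g a, D' (ρ g a) = ρ g (D' a))
    (hl : ∀ a, ∃ x, D a = ρ x a) (hl' : ∀ a, ∃ x, D' a = ρ x a)
    (z : G → A) (hz : ∀ g h, z (g * h) = z g * ρ g (z h))
    (hsym : ∀ g h, ρ g (z h) / z h = ρ h (z g) / z g)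
    (hs : ∀ g, ∃ a, z g = a / ρ g a) :
    ∃ a, ∀ h, D (D' (z h) / z h) / (D' (z h) / z h) = ρ h a / a := by
  have hloc : ∀ E : A →* A, (∀ a, ∃ x, E a = ρ x a) → ∀ w : Additive A →+ Additive ℂˣ,
      ∃ y, ∀ a, w (MonoidHom.toAdditive E a) = w (MonoidHom.toAdditive (ρ y) a) := by
    intro E hE w
    obtain ⟨y, hy⟩ := dual_local ρ hmul hone E hE (MonoidHom.toAdditive.symm w)
    exact ⟨y, fun a => hy a.toMul⟩
  obtain ⟨a, ha⟩ := core (G := G) (A := Additive A) (T := Additive ℂˣ)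
    (fun g => MonoidHom.toAdditive (ρ g)) (fun g h a => hmul g h a.toMul)
    (fun a => hone a.toMul) (fun g h a => hcomm g h a.toMul)
    (MonoidHom.toAdditive D) (MonoidHom.toAdditive D')
    (fun g a => hD g a.toMul) (fun g a => hD' g a.toMul) (hloc D hl) (hloc D' hl')
    (fun g => Additive.ofMul (z g)) (fun g h => hz g h) (fun g h => hsym g h)
    (fun g => by
      obtain ⟨a, ha⟩ := hs g
      exact ⟨Additive.ofMul a, ha⟩)
    (fun a b hab => by
      have := (CommGroup.forall_apply_eq_apply_iff A (M := ℂ) (g := a.toMul) (g' := b.toMul)).1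
        (fun φ => hab (MonoidHom.toAdditive φ))
      exact this)
    (fun f => by
      let η : (A →* ℂˣ) →* ℂˣ := MonoidHom.mk' (fun φ => (f (MonoidHom.toAdditive φ)).toMul)
        (fun φ ψ => by
          have : MonoidHom.toAdditive (φ * ψ) =
              MonoidHom.toAdditive φ + MonoidHom.toAdditive ψ := rfl
          rw [this, map_add]
          rfl)
      refine ⟨Additive.ofMul (CommGroup.monoidHomMonoidHomEquiv A ℂ η), fun w => ?_⟩
      have := CommGroup.apply_monoidHomMonoidHomEquiv ℂ (MonoidHom.toAdditive.symm w) η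
      exact this.symm)
  exact ⟨a.toMul, ha⟩

end Dual

end Pool.Agent.MP_1f2b6a_al

end

-- part MP_1f2b6a_al.Main
section

/-! The group-level argument. -/

namespace Pool.Agent.MP_1f2b6a_al

section Main

open scoped commutatorElement

variable {G : Type*} [Group G]

theorem autc_exists {α : MulAut G} (hα : α ∈ Autc G) (g : G) : ∃ c, α g = c * g * c⁻¹ := by
  obtain ⟨c, hc⟩ := isConj_iff.1 (hα g).symm
  exact ⟨c, hc.symm⟩

theorem comm_mem (x y : G) : x * y * x⁻¹ * y⁻¹ ∈ commutator G := by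
  have := Subgroup.commutator_mem_commutator (Subgroup.mem_top x) (Subgroup.mem_top y)
  rwa [commutatorElement_def] at this

theorem autc_div_mem {α : MulAut G} (hα : α ∈ Autc G) (g : G) :
    α g * g⁻¹ ∈ commutator G := by
  obtain ⟨c, hc⟩ := autc_exists hα g
  rw [hc]
  exact comm_mem c g

theorem autc_mem {α : MulAut G} (hα : α ∈ Autc G) {a : G} (ha : a ∈ commutator G) :
    α a ∈ commutator G := by
  have := mul_mem (autc_div_mem hα a) ha
  simpa using this

/-- Automorphisms that move each element by a conjugation from the derived subgroup. -/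
def Strong (β : MulAut G) : Prop := ∀ g, ∃ a ∈ commutator G, β g = a * g * a⁻¹

theorem Strong.autc {β : MulAut G} (hβ : Strong β) : β ∈ Autc G := fun g => by
  obtain ⟨a, -, ha⟩ := hβ g
  exact (isConj_iff.2 ⟨a, ha.symm⟩).symm

theorem strong_commutator {α α' : MulAut G} (hα : α ∈ Autc G) (hα' : α' ∈ Autc G) :
    Strong ⁅α, α'⁆ := by
  intro k
  set g := α⁻¹ (α'⁻¹ k) with hg
  have hk : k = α' (α g) := by simp [hg]
  obtain ⟨x, hx⟩ := autc_exists hα g
  obtain ⟨x', hx'⟩ := autc_exists hα' g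
  have h1 : ⁅α, α'⁆ k = α (α' g) := by
    simp [commutatorElement_def, hg]
  refine ⟨(α x' * x) * (α' x * x')⁻¹, ?_, ?_⟩
  · have e : (α x' * x) * (α' x * x')⁻¹ =
        (α x' * x'⁻¹) * (x' * x * x'⁻¹ * x⁻¹) * (α' x * x⁻¹)⁻¹ := by group
    rw [e]
    exact mul_mem (mul_mem (autc_div_mem hα _) (comm_mem _ _)) (inv_mem (autc_div_mem hα' _))
  · rw [h1, hk, hx', hx]
    simp only [map_mul, map_inv, hx, hx']
    group

variable (hA : ∀ a ∈ commutator G, ∀ b ∈ commutator G, a * b = b * a)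
include hA

theorem Strong.fix {β : MulAut G} (hβ : Strong β) {a : G} (ha : a ∈ commutator G) :
    β a = a := by
  obtain ⟨b, hb, h⟩ := hβ a
  rw [h, hA b hb a ha]
  simp

theorem Strong.congr {β : MulAut G} (hβ : Strong β) {g h : G} (hgh : g * h⁻¹ ∈ commutator G) :
    β g * g⁻¹ = β h * h⁻¹ := by
  have e : g = (g * h⁻¹) * h := by simp
  have hz := autc_div_mem hβ.autc h
  calc β g * g⁻¹ = (g * h⁻¹) * (β h * h⁻¹) * (g * h⁻¹)⁻¹ := by
        conv_lhs => rw [e, map_mul, hβ.fix hA hgh]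
        group
    _ = β h * h⁻¹ := by
        rw [hA _ hgh _ hz]
        group

theorem Strong.mul {β β' : MulAut G} (hβ : Strong β) (hβ' : Strong β') : Strong (β * β') := by
  intro g
  obtain ⟨a, ha, h⟩ := hβ g
  obtain ⟨a', ha', h'⟩ := hβ' g
  refine ⟨a' * a, mul_mem ha' ha, ?_⟩
  simp only [MulAut.mul_apply, h', map_mul, map_inv, hβ.fix hA ha', h]
  group

omit hA in
theorem Strong.inv {β : MulAut G} (hβ : Strong β) : Strong β⁻¹ := by
  intro g
  obtain ⟨a, ha, h⟩ := hβ (β⁻¹ g)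
  refine ⟨a⁻¹, inv_mem ha, ?_⟩
  rw [MulAut.apply_inv_self] at h
  conv_rhs => rw [h]
  group

theorem strong_cocycle {α β : MulAut G} (hα : α ∈ Autc G) (hβ : Strong β) (k : G) :
    ⁅α, β⁆ k * k⁻¹ = α (β k * k⁻¹) * (β k * k⁻¹)⁻¹ := by
  set g := α⁻¹ (β⁻¹ k) with hg
  have hk : k = β (α g) := by simp [hg]
  have h1 : ⁅α, β⁆ k = α (β g) := by
    simp [commutatorElement_def, hg]
  have h2 : β (α g) * (α g)⁻¹ = β g * g⁻¹ := hβ.congr hA (autc_div_mem hα g)
  have h3 : β k * k⁻¹ = β g * g⁻¹ := by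
    refine hβ.congr hA ?_
    have := autc_div_mem (mul_mem hβ.autc hα) g
    rwa [MulAut.mul_apply, ← hk] at this
  have h4 : k = β g * g⁻¹ * α g := by rw [← h2, ← hk]; simp
  rw [h1, h3]
  conv_lhs => rw [h4]
  simp only [map_mul, map_inv]
  group

theorem triple_inner [Finite G] {α α' β : MulAut G} (hα : α ∈ Autc G) (hα' : α' ∈ Autc G)
    (hβ : Strong β) : ∃ x : G, MulAut.conj x = ⁅α, ⁅α', β⁆⁆ := by
  let _ : CommGroup (commutator G) :=
    { (inferInstance : Group (commutator G)) with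
      mul_comm := fun a b => Subtype.ext (hA _ a.2 _ b.2) }
  let ρ : G → commutator G →* commutator G := fun g => (MulAut.conjNormal g).toMonoidHom
  have hρ : ∀ g (a : commutator G), (ρ g a : G) = g * a * g⁻¹ := fun g a => rfl
  let R : (γ : MulAut G) → γ ∈ Autc G → (commutator G →* commutator G) := fun γ hγ =>
    (γ.toMonoidHom.domRestrict (commutator G)).codRestrict (commutator G)
      (fun a => autc_mem hγ a.2)
  have hR : ∀ γ hγ (a : commutator G), (R γ hγ a : G) = γ a := fun γ hγ a => rfl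
  have hnorm : ∀ (g : G) (a : commutator G), g * a * g⁻¹ ∈ commutator G := fun g a => (ρ g a).2
  have hconj : ∀ (m : G), m ∈ commutator G → ∀ b ∈ commutator G, m * b * m⁻¹ = b := by
    intro m hm b hb
    rw [hA m hm b hb]
    simp
  have hRρ : ∀ γ hγ g a, R γ hγ (ρ g a) = ρ g (R γ hγ a) := by
    intro γ hγ g a
    apply Subtype.ext
    rw [hR γ hγ, hρ, hρ, hR γ hγ]
    have := hconj _ (autc_div_mem hγ g) _ (hnorm g (R γ hγ a))
    rw [hR γ hγ] at this
    rw [← this]
    simp only [map_mul, map_inv]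
    group
  have hRl : ∀ γ hγ a, ∃ x, R γ hγ a = ρ x a := by
    intro γ hγ a
    obtain ⟨c, hc⟩ := autc_exists hγ a
    exact ⟨c, Subtype.ext hc⟩
  let z : G → commutator G := fun g => ⟨β g * g⁻¹, autc_div_mem hβ.autc g⟩
  have hzv : ∀ g, (z g : G) = β g * g⁻¹ := fun g => rfl
  have hz : ∀ g h, z (g * h) = z g * ρ g (z h) := by
    intro g h
    apply Subtype.ext
    simp only [Subgroup.coe_mul, hρ, hzv, map_mul]
    group
  obtain ⟨a, ha⟩ := core_mul ρ
    (fun g h a => Subtype.ext (by simp only [hρ]; group))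
    (fun a => Subtype.ext (by simp only [hρ]; group))
    (fun g h a => Subtype.ext (by
      simp only [hρ]
      have := hconj _ (comm_mem g h) _ (hnorm h (ρ g a))
      rw [hρ] at this
      rw [← this]
      group))
    (R α hα) (R α' hα') (hRρ α hα) (hRρ α' hα') (hRl α hα) (hRl α' hα') z hz
    (fun g h => by
      have h1 : z (g * h) = z (h * g) := by
        apply Subtype.ext
        refine hβ.congr hA ?_
        have := comm_mem g h
        simpa [mul_assoc] using this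
      rw [hz, hz] at h1
      rw [div_eq_div_iff_mul_eq_mul, mul_comm, h1, mul_comm])
    (fun g => by
      obtain ⟨a, ha, h⟩ := hβ g
      refine ⟨⟨a, ha⟩, Subtype.ext ?_⟩
      simp only [hzv, h, div_eq_mul_inv, Subgroup.coe_mul, Subgroup.coe_inv, hρ]
      group)
  refine ⟨(a : G)⁻¹, ?_⟩
  ext h
  have h1 := congrArg Subtype.val (ha h)
  simp only [div_eq_mul_inv, Subgroup.coe_mul, Subgroup.coe_inv, hρ, hR, hzv] at h1
  have hβ' : Strong ⁅α', β⁆ := strong_commutator hα' hβ.autc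
  rw [← strong_cocycle hA hα' hβ h, ← strong_cocycle hA hα hβ' h,
    hA _ (hnorm h a) _ (inv_mem a.2)] at h1
  have h2 : ⁅α, ⁅α', β⁆⁆ h = (⁅α, ⁅α', β⁆⁆ h * h⁻¹) * h := by simp
  rw [h2, h1, MulAut.conj_apply]
  group

theorem lcs_three [Finite G] : (⊤ : Subgroup (Outc G)).lowerCentralSeries 3 = ⊥ := by
  let S : Subgroup (Autc G) :=
    { carrier := {β | Strong (β : MulAut G)}
      one_mem' := fun g => ⟨1, one_mem _, by simp⟩
      mul_mem' := fun hβ hβ' => Strong.mul hA hβ hβ'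
      inv_mem' := fun hβ => Strong.inv hβ }
  let π : Autc G →* Outc G := QuotientGroup.mk' (InnAutc G)
  have hπ : Function.Surjective π := QuotientGroup.mk'_surjective _
  have h1 : (⊤ : Subgroup (Outc G)).lowerCentralSeries 1 ≤ S.map π := by
    rw [Subgroup.lowerCentralSeries_succ, Subgroup.commutator_le]
    intro p _ q _
    obtain ⟨α, rfl⟩ := hπ p
    obtain ⟨α', rfl⟩ := hπ q
    refine ⟨⁅α, α'⁆, ?_, by simp [map_commutatorElement]⟩
    exact strong_commutator α.2 α'.2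
  have h2 : (⊤ : Subgroup (Outc G)).lowerCentralSeries 2 ≤ Subgroup.center (Outc G) := by
    rw [Subgroup.lowerCentralSeries_succ, Subgroup.commutator_comm, Subgroup.commutator_le]
    intro p _ q hq
    obtain ⟨α', rfl⟩ := hπ p
    obtain ⟨β, hβ, rfl⟩ := h1 hq
    rw [Subgroup.mem_center_iff]
    intro r
    obtain ⟨α, rfl⟩ := hπ r
    rw [← commutatorElement_eq_one_iff_mul_comm, ← map_commutatorElement,
      ← map_commutatorElement]
    exact (QuotientGroup.eq_one_iff _).2 (triple_inner hA α.2 α'.2 hβ)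
  rw [eq_bot_iff, Subgroup.lowerCentralSeries_succ, Subgroup.commutator_le]
  intro p hp q _
  rw [Subgroup.mem_bot, commutatorElement_eq_one_iff_mul_comm]
  exact ((Subgroup.mem_center_iff.1 (h2 hp)) q).symm

end Main

end Pool.Agent.MP_1f2b6a_al

end
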